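import Mathlib

/-! T2, sieve block: Bonferroni inequalities with weights in `[0,1]`. -/

set_option autoImplicit false

namespace Pool.Agent.Helper58.SV

open Finset

/-- truncated inclusion-exclusion sum -/
noncomputable def tr (B : Finset ℕ) (w : ℕ → ℝ) (k : ℕ) : ℝ :=
  ∑ E ∈ B.powerset.filter (fun E => E.card ≤ k), ∏ l ∈ E, (-w l)

/-- elementary symmetric sum -/
noncomputable def es (B : Finset ℕ) (w : ℕ → ℝ) (k : ℕ) : ℝ :=
  ∑ E ∈ B.powersetCard k, ∏ l ∈ E, w l

theorem tr_empty (w : ℕ → ℝ) (k : ℕ) : tr ∅ w k = 1 := by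
  classical
  unfold tr
  have : (∅ : Finset ℕ).powerset.filter (fun E => E.card ≤ k) = {∅} := by
    ext E
    simp only [Finset.mem_filter, Finset.mem_powerset, Finset.subset_empty, Finset.mem_singleton]
    constructor
    · rintro ⟨h, _⟩; exact h
    · rintro rfl; exact ⟨rfl, by simp⟩
  rw [this]; simp

theorem es_zero (B : Finset ℕ) (w : ℕ → ℝ) : es B w 0 = 1 := by
  simp [es]

theorem es_empty (w : ℕ → ℝ) (k : ℕ) : es ∅ w (k + 1) = 0 := by
  unfold es
  rw [Finset.powersetCard_eq_empty.2 (by simp)]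
  simp

theorem es_nonneg (B : Finset ℕ) (w : ℕ → ℝ) (hw : ∀ l ∈ B, 0 ≤ w l) (k : ℕ) : 0 ≤ es B w k := by
  unfold es
  refine Finset.sum_nonneg fun E hE => Finset.prod_nonneg fun l hl => hw l ?_
  exact (Finset.mem_powersetCard.1 hE).1 hl

theorem es_insert (B : Finset ℕ) (w : ℕ → ℝ) (k a : ℕ) (ha : a ∉ B) :
    es (insert a B) w (k + 1) = es B w (k + 1) + w a * es B w k := by
  classical
  unfold es
  rw [Finset.powersetCard_succ_insert ha, Finset.sum_union, Finset.mul_sum, Finset.sum_image]
  · congr 1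
    refine Finset.sum_congr rfl fun E hE => ?_
    have : a ∉ E := fun h => ha ((Finset.mem_powersetCard.1 hE).1 h)
    rw [Finset.prod_insert this]
  · intro E hE F hF h
    have h1 : a ∉ E := fun h => ha ((Finset.mem_powersetCard.1 hE).1 h)
    have h2 : a ∉ F := fun h => ha ((Finset.mem_powersetCard.1 hF).1 h)
    have := congrArg (fun G => G.erase a) h
    simpa [Finset.erase_insert h1, Finset.erase_insert h2] using this
  · rw [Finset.disjoint_left]
    intro E hE hE'
    obtain ⟨F, hF, rfl⟩ := Finset.mem_image.1 hE'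
    exact ha ((Finset.mem_powersetCard.1 hE).1 (Finset.mem_insert_self a F))

theorem tr_zero (B : Finset ℕ) (w : ℕ → ℝ) : tr B w 0 = 1 := by
  classical
  unfold tr
  have : B.powerset.filter (fun E => E.card ≤ 0) = {∅} := by
    ext E
    simp only [Finset.mem_filter, Finset.mem_powerset, Nat.le_zero, Finset.card_eq_zero,
      Finset.mem_singleton]
    constructor
    · rintro ⟨_, h⟩; exact h
    · rintro rfl; exact ⟨Finset.empty_subset _, rfl⟩
  rw [this]; simp

theorem tr_insert (B : Finset ℕ) (w : ℕ → ℝ) (k a : ℕ) (ha : a ∉ B) :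
    tr (insert a B) w (k + 1) = tr B w (k + 1) - w a * tr B w k := by
  classical
  unfold tr
  rw [Finset.powerset_insert, Finset.filter_union, Finset.sum_union]
  · have h2 : (B.powerset.image (insert a)).filter (fun E => E.card ≤ k + 1) =
        (B.powerset.filter (fun E => E.card ≤ k)).image (insert a) := by
      ext E
      simp only [Finset.mem_filter, Finset.mem_image, Finset.mem_powerset]
      constructor
      · rintro ⟨⟨F, hF, rfl⟩, hc⟩
        refine ⟨F, ⟨hF, ?_⟩, rfl⟩
        have : a ∉ F := fun h => ha (hF h)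
        rw [Finset.card_insert_of_notMem this] at hc
        omega
      · rintro ⟨F, ⟨hF, hc⟩, rfl⟩
        refine ⟨⟨F, hF, rfl⟩, ?_⟩
        have : a ∉ F := fun h => ha (hF h)
        rw [Finset.card_insert_of_notMem this]
        omega
    rw [h2, Finset.sum_image, Finset.mul_sum, sub_eq_add_neg, ← Finset.sum_neg_distrib]
    · congr 1
      refine Finset.sum_congr rfl fun E hE => ?_
      have : a ∉ E := fun h => ha ((Finset.mem_powerset.1 (Finset.mem_filter.1 hE).1) h)
      rw [Finset.prod_insert this]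
      ring
    · intro E hE F hF h
      have h1 : a ∉ E := fun h => ha ((Finset.mem_powerset.1 (Finset.mem_filter.1 hE).1) h)
      have h2 : a ∉ F := fun h => ha ((Finset.mem_powerset.1 (Finset.mem_filter.1 hF).1) h)
      have := congrArg (fun G => G.erase a) h
      simpa [Finset.erase_insert h1, Finset.erase_insert h2] using this
  · rw [Finset.disjoint_left]
    intro E hE hE'
    obtain ⟨h1, _⟩ := Finset.mem_filter.1 hE
    obtain ⟨h2, _⟩ := Finset.mem_filter.1 hE'
    obtain ⟨F, hF, rfl⟩ := Finset.mem_image.1 h2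
    exact ha ((Finset.mem_powerset.1 h1) (Finset.mem_insert_self a F))

theorem prod_one_sub_mem (B : Finset ℕ) (w : ℕ → ℝ) (hw : ∀ l ∈ B, 0 ≤ w l ∧ w l ≤ 1) :
    0 ≤ ∏ l ∈ B, (1 - w l) ∧ ∏ l ∈ B, (1 - w l) ≤ 1 := by
  constructor
  · exact Finset.prod_nonneg fun l hl => by have := hw l hl; linarith
  · exact Finset.prod_le_one (fun l hl => by have := hw l hl; linarith)
      (fun l hl => by have := hw l hl; linarith)

/-- Bonferroni, alternating form -/
theorem bonf (B : Finset ℕ) (w : ℕ → ℝ) (hw : ∀ l ∈ B, 0 ≤ w l ∧ w l ≤ 1) :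
    ∀ k : ℕ, 0 ≤ (-1 : ℝ) ^ k * (tr B w k - ∏ l ∈ B, (1 - w l)) ∧
      (-1 : ℝ) ^ k * (tr B w k - ∏ l ∈ B, (1 - w l)) ≤ es B w (k + 1) := by
  classical
  induction B using Finset.induction_on with
  | empty =>
    intro k
    rw [tr_empty, es_empty]
    simp
  | insert a B ha ih =>
    have hwB : ∀ l ∈ B, 0 ≤ w l ∧ w l ≤ 1 := fun l hl => hw l (Finset.mem_insert_of_mem hl)
    have hwa := hw a (Finset.mem_insert_self a B)
    have ih' := ih hwB
    have hV := prod_one_sub_mem B w hwB
    intro k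
    cases k with
    | zero =>
      have h0 := ih' 0
      rw [tr_zero, Finset.prod_insert ha, es_insert _ _ _ _ ha, es_zero]
      rw [tr_zero] at h0
      simp only [pow_zero, one_mul, zero_add] at h0 ⊢
      constructor
      · nlinarith [hV.1, hV.2, hwa.1, hwa.2]
      · nlinarith [hV.1, hV.2, hwa.1, hwa.2]
    | succ k =>
      have h1 := ih' k
      have h2 := ih' (k + 1)
      rw [tr_insert _ _ _ _ ha, Finset.prod_insert ha, es_insert _ _ _ _ ha]
      have e : (-1 : ℝ) ^ (k + 1) * (tr B w (k + 1) - w a * tr B w k - (1 - w a) * ∏ l ∈ B, (1 - w l))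
          = (-1 : ℝ) ^ (k + 1) * (tr B w (k + 1) - ∏ l ∈ B, (1 - w l))
            + w a * ((-1 : ℝ) ^ k * (tr B w k - ∏ l ∈ B, (1 - w l))) := by
        rw [pow_succ]; ring
      rw [e]
      constructor
      · have := mul_nonneg hwa.1 h1.1
        linarith [h2.1]
      · have := mul_le_mul_of_nonneg_left h1.2 hwa.1
        linarith [h2.2]

theorem es_le_pow (B : Finset ℕ) (w : ℕ → ℝ) (hw : ∀ l ∈ B, 0 ≤ w l) :
    ∀ k : ℕ, es B w k ≤ (∑ l ∈ B, w l) ^ k := by
  classical
  induction B using Finset.induction_on with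
  | empty =>
    intro k
    cases k with
    | zero => simp [es_zero]
    | succ k => rw [es_empty]; simp
  | insert a B ha ih =>
    have hwB : ∀ l ∈ B, 0 ≤ w l := fun l hl => hw l (Finset.mem_insert_of_mem hl)
    have hwa := hw a (Finset.mem_insert_self a B)
    intro k
    cases k with
    | zero => simp [es_zero]
    | succ k =>
      rw [es_insert _ _ _ _ ha, Finset.sum_insert ha]
      have h1 := ih hwB k
      have h2 := ih hwB (k + 1)
      set s := ∑ l ∈ B, w l with hs
      have hs0 : 0 ≤ s := Finset.sum_nonneg hwB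
      have h3 : s ^ k ≤ (w a + s) ^ k := pow_le_pow_left₀ hs0 (by linarith) k
      calc es B w (k + 1) + w a * es B w k ≤ s ^ (k + 1) + w a * s ^ k := by
            have := mul_le_mul_of_nonneg_left h1 hwa
            linarith
        _ = (w a + s) * s ^ k := by ring
        _ ≤ (w a + s) * (w a + s) ^ k := mul_le_mul_of_nonneg_left h3 (by linarith)
        _ = (w a + s) ^ (k + 1) := by ring

/-- upper truncation: even level -/
theorem tr_even (B : Finset ℕ) (w : ℕ → ℝ) (hw : ∀ l ∈ B, 0 ≤ w l ∧ w l ≤ 1) (b : ℕ) :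
    ∏ l ∈ B, (1 - w l) ≤ tr B w (2 * b) ∧
      tr B w (2 * b) ≤ ∏ l ∈ B, (1 - w l) + es B w (2 * b + 1) := by
  have h := bonf B w hw (2 * b)
  rw [pow_mul, neg_one_sq, one_pow, one_mul] at h
  constructor <;> linarith [h.1, h.2]

end Pool.Agent.Helper58.SV
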