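import Mathlib
import Pool.Agent.Helper58.SV.Bonf

/-! T2, sieve block: products over blocks. -/

set_option autoImplicit false

namespace Pool.Agent.Helper58.SV

open Finset

variable {α : Type*}

open Classical in
/-- number of `x` in `A` hit by all members of `E` -/
noncomputable def cnt (A : Finset α) (hit : ℕ → α → Prop) (E : Finset ℕ) : ℝ :=
  ((A.filter (fun x => ∀ l ∈ E, hit l x)).card : ℝ)

open Classical in
/-- indicator weight -/
noncomputable def wt (hit : ℕ → α → Prop) (x : α) (l : ℕ) : ℝ := if hit l x then 1 else 0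

theorem wt_mem (hit : ℕ → α → Prop) (x : α) (l : ℕ) : 0 ≤ wt hit x l ∧ wt hit x l ≤ 1 := by
  unfold wt; split_ifs <;> norm_num

theorem prod_wt (hit : ℕ → α → Prop) (x : α) (E : Finset ℕ) [Decidable (∀ l ∈ E, hit l x)] :
    ∏ l ∈ E, wt hit x l = if (∀ l ∈ E, hit l x) then 1 else 0 := by
  classical
  split_ifs with h
  · exact Finset.prod_eq_one fun l hl => by unfold wt; rw [if_pos (h l hl)]
  · push Not at h
    obtain ⟨l, hl, hn⟩ := h
    exact Finset.prod_eq_zero hl (by unfold wt; rw [if_neg hn])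

theorem sum_prod_wt (A : Finset α) (hit : ℕ → α → Prop) (E : Finset ℕ) :
    ∑ x ∈ A, ∏ l ∈ E, wt hit x l = cnt A hit E := by
  classical
  unfold cnt
  rw [Finset.card_filter]
  push_cast
  exact Finset.sum_congr rfl fun x _ => by rw [prod_wt]

/-- joint approximation for products of signed sums over disjoint blocks -/
theorem approx (A : Finset α) (hit : ℕ → α → Prop) (e : ℕ → ℝ) (r : ℕ) (B : Fin r → Finset ℕ)
    (hB : ∀ i j, i ≠ j → Disjoint (B i) (B j)) (t : Fin r → Finset (Finset ℕ))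
    (ht : ∀ j, ∀ E ∈ t j, E ⊆ B j) (s : Fin r → Finset ℕ → ℝ) (hs : ∀ j E, |s j E| ≤ 1)
    (he : ∀ j, ∀ l ∈ B j, 0 ≤ e l) (η : ℝ)
    (hA : ∀ p ∈ Fintype.piFinset t,
      |cnt A hit (univ.biUnion p) - (A.card : ℝ) * ∏ l ∈ univ.biUnion p, e l| ≤
        η * (A.card : ℝ) * ∏ l ∈ univ.biUnion p, e l) :
    |∑ x ∈ A, ∏ j, ∑ E ∈ t j, s j E * ∏ l ∈ E, wt hit x l
        - (A.card : ℝ) * ∏ j, ∑ E ∈ t j, s j E * ∏ l ∈ E, e l| ≤
      η * (A.card : ℝ) * ∏ j, ∑ E ∈ t j, ∏ l ∈ E, e l := by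
  classical
  have hdis : ∀ p ∈ Fintype.piFinset t, ∀ w : ℕ → ℝ,
      ∏ j, ∏ l ∈ p j, w l = ∏ l ∈ univ.biUnion p, w l := by
    intro p hp w
    rw [Finset.prod_biUnion]
    intro i _ j _ hij
    have hi := ht i _ (Fintype.mem_piFinset.1 hp i)
    have hj := ht j _ (Fintype.mem_piFinset.1 hp j)
    exact (hB i j hij).mono hi hj
  have e1 : ∑ x ∈ A, ∏ j, ∑ E ∈ t j, s j E * ∏ l ∈ E, wt hit x l
      = ∑ p ∈ Fintype.piFinset t, (∏ j, s j (p j)) * cnt A hit (univ.biUnion p) := by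
    rw [Finset.sum_congr rfl (fun x _ => Finset.prod_univ_sum (t := t)
      (f := fun j E => s j E * ∏ l ∈ E, wt hit x l))]
    rw [Finset.sum_comm]
    refine Finset.sum_congr rfl fun p hp => ?_
    rw [← sum_prod_wt, Finset.mul_sum]
    refine Finset.sum_congr rfl fun x _ => ?_
    rw [Finset.prod_mul_distrib, hdis p hp]
  have e2 : ∏ j, ∑ E ∈ t j, s j E * ∏ l ∈ E, e l
      = ∑ p ∈ Fintype.piFinset t, (∏ j, s j (p j)) * ∏ l ∈ univ.biUnion p, e l := by
    rw [Finset.prod_univ_sum]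
    refine Finset.sum_congr rfl fun p hp => ?_
    rw [Finset.prod_mul_distrib, hdis p hp]
  have e3 : ∏ j, ∑ E ∈ t j, ∏ l ∈ E, e l
      = ∑ p ∈ Fintype.piFinset t, ∏ l ∈ univ.biUnion p, e l := by
    rw [Finset.prod_univ_sum]
    exact Finset.sum_congr rfl fun p hp => hdis p hp e
  rw [e1, e2, e3, Finset.mul_sum, Finset.mul_sum, ← Finset.sum_sub_distrib]
  refine (Finset.abs_sum_le_sum_abs _ _).trans ?_
  refine Finset.sum_le_sum fun p hp => ?_
  have h1 : |∏ j, s j (p j)| ≤ 1 := by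
    rw [Finset.abs_prod]
    exact Finset.prod_le_one (fun j _ => abs_nonneg _) (fun j _ => hs j _)
  have h2 : (∏ j, s j (p j)) * cnt A hit (univ.biUnion p)
      - (A.card : ℝ) * ((∏ j, s j (p j)) * ∏ l ∈ univ.biUnion p, e l)
      = (∏ j, s j (p j)) * (cnt A hit (univ.biUnion p)
        - (A.card : ℝ) * ∏ l ∈ univ.biUnion p, e l) := by ring
  rw [h2, abs_mul]
  calc |∏ j, s j (p j)| * |cnt A hit (univ.biUnion p) - (A.card : ℝ) * ∏ l ∈ univ.biUnion p, e l|
      ≤ 1 * |cnt A hit (univ.biUnion p) - (A.card : ℝ) * ∏ l ∈ univ.biUnion p, e l| :=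
        mul_le_mul_of_nonneg_right h1 (abs_nonneg _)
    _ ≤ _ := by rw [one_mul]; exact hA p hp

theorem prod_neg_eq (E : Finset ℕ) (w : ℕ → ℝ) :
    ∏ l ∈ E, (-w l) = (-1 : ℝ) ^ E.card * ∏ l ∈ E, w l := by
  classical
  induction E using Finset.induction_on with
  | empty => simp
  | insert a E ha ih =>
    rw [Finset.prod_insert ha, Finset.prod_insert ha, Finset.card_insert_of_notMem ha, ih, pow_succ]
    ring

/-- telescoping: `∏ T - ∑ R_l ∏_{j ≠ l} T_j ≤ ∏ u` if `u ≤ T ≤ u + R`. -/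
theorem prod_lower (r : ℕ) : ∀ (u T R : Fin r → ℝ), (∀ j, 0 ≤ u j) → (∀ j, u j ≤ T j) →
    (∀ j, T j ≤ u j + R j) →
    ∏ j, T j - ∑ l, R l * ∏ j ∈ univ.erase l, T j ≤ ∏ j, u j := by
  classical
  intro u T R hu hT hR
  have hT0 : ∀ j, 0 ≤ T j := fun j => (hu j).trans (hT j)
  have key : ∀ S : Finset (Fin r), ∏ j ∈ S, T j - ∑ l ∈ S, R l * ∏ j ∈ S.erase l, T j ≤ ∏ j ∈ S, u j := by
    intro S
    induction S using Finset.induction_on with
    | empty => simp
    | insert a S ha ih =>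
      rw [Finset.prod_insert ha, Finset.prod_insert ha, Finset.sum_insert ha,
        Finset.erase_insert ha]
      have h1 : ∑ l ∈ S, R l * ∏ j ∈ (insert a S).erase l, T j
          = T a * ∑ l ∈ S, R l * ∏ j ∈ S.erase l, T j := by
        rw [Finset.mul_sum]
        refine Finset.sum_congr rfl fun l hl => ?_
        have hla : l ≠ a := fun h => ha (h ▸ hl)
        have : (insert a S).erase l = insert a (S.erase l) :=
          Finset.erase_insert_of_ne (Ne.symm hla)
        rw [this, Finset.prod_insert (fun h => ha (Finset.mem_of_mem_erase h))]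
        ring
      rw [h1]
      have hPu : 0 ≤ ∏ j ∈ S, u j := Finset.prod_nonneg fun j _ => hu j
      have hPT : ∏ j ∈ S, u j ≤ ∏ j ∈ S, T j := Finset.prod_le_prod (fun j _ => hu j) (fun j _ => hT j)
      have h2 := hR a
      have h3 := hT a
      have h4 := mul_le_mul_of_nonneg_left ih (hT0 a)
      have h5 : T a * ∏ j ∈ S, u j ≤ (u a + R a) * ∏ j ∈ S, u j :=
        mul_le_mul_of_nonneg_right h2 hPu
      have hRa : 0 ≤ R a := by linarith
      have h6 : R a * ∏ j ∈ S, u j ≤ R a * ∏ j ∈ S, T j := mul_le_mul_of_nonneg_left hPT hRa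
      nlinarith
  exact key univ

end Pool.Agent.Helper58.SV
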