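import Mathlib
import Pool.Agent.Helper58.SV.Approx

/-! T2, sieve block: the Brun-Hooley sieve in abstract form, dimension close to zero. -/

set_option autoImplicit false

namespace Pool.Agent.Helper58.SV

open Finset

variable {α : Type*}

/-- the block of the primes in `(z^(1/2^(j+1)), z^(1/2^j)]` -/
def blk (P : Finset ℕ) (z j : ℕ) : Finset ℕ :=
  P.filter (fun l => l ^ 2 ^ j ≤ z ∧ z < l ^ 2 ^ (j + 1))

theorem blk_subset (P : Finset ℕ) (z j : ℕ) : blk P z j ⊆ P := Finset.filter_subset _ _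

theorem blk_disjoint (P : Finset ℕ) (z i j : ℕ) (hij : i ≠ j) : Disjoint (blk P z i) (blk P z j) := by
  rw [Finset.disjoint_left]
  intro l h1 h2
  have a1 := (Finset.mem_filter.1 h1).2
  have a2 := (Finset.mem_filter.1 h2).2
  have hl : 1 ≤ l := by
    rcases Nat.eq_zero_or_pos l with h | h
    · subst h
      have := a1.2
      rw [zero_pow (by positivity)] at this
      omega
    · exact h
  rcases lt_or_gt_of_ne hij with h | h
  · have h3 : l ^ 2 ^ (i + 1) ≤ l ^ 2 ^ j :=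
      Nat.pow_le_pow_right hl (Nat.pow_le_pow_right (by norm_num) h)
    have := a1.2; have := a2.1; omega
  · have h3 : l ^ 2 ^ (j + 1) ≤ l ^ 2 ^ i :=
      Nat.pow_le_pow_right hl (Nat.pow_le_pow_right (by norm_num) h)
    have := a2.2; have := a1.1; omega

theorem blk_cover (P : Finset ℕ) (z r : ℕ) (hP : ∀ l ∈ P, 2 ≤ l ∧ l ≤ z) (hr : z < 2 ^ 2 ^ r) :
    (univ : Finset (Fin r)).biUnion (fun j => blk P z j) = P := by
  classical
  ext l
  simp only [Finset.mem_biUnion, Finset.mem_univ, true_and]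
  constructor
  · rintro ⟨j, hj⟩; exact blk_subset _ _ _ hj
  · intro hl
    obtain ⟨h2, hz⟩ := hP l hl
    have hlr : z < l ^ 2 ^ r := hr.trans_le (Nat.pow_le_pow_left h2 _)
    have hex : ∃ j, z < l ^ 2 ^ (j + 1) := by
      refine ⟨r, hlr.trans_le (Nat.pow_le_pow_right (by omega) (Nat.pow_le_pow_right (by norm_num) (by omega)))⟩
    set j := Nat.find hex with hj
    have hj1 : z < l ^ 2 ^ (j + 1) := Nat.find_spec hex
    have hj2 : l ^ 2 ^ j ≤ z := by
      rcases Nat.eq_zero_or_pos j with h | h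
      · rw [h]; simpa using hz
      · obtain ⟨i, hi⟩ : ∃ i, j = i + 1 := ⟨j - 1, by omega⟩
        have := Nat.find_min hex (m := i) (by omega)
        rw [← hi] at this
        omega
    have hjr : j < r := by
      by_contra hcon
      push Not at hcon
      have : l ^ 2 ^ r ≤ l ^ 2 ^ j :=
        Nat.pow_le_pow_right (by omega) (Nat.pow_le_pow_right (by norm_num) hcon)
      omega
    exact ⟨⟨j, hjr⟩, Finset.mem_filter.2 ⟨hl, hj2, hj1⟩⟩

theorem level_sum (r : ℕ) : ∑ j ∈ range r, (2 * j + 1) * 2 ^ (r - j) + (4 * r + 6) = 6 * 2 ^ r := by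
  induction r with
  | zero => simp
  | succ r ih =>
    rw [Finset.sum_range_succ]
    have h1 : ∑ j ∈ range r, (2 * j + 1) * 2 ^ (r + 1 - j) = 2 * ∑ j ∈ range r, (2 * j + 1) * 2 ^ (r - j) := by
      rw [Finset.mul_sum]
      refine Finset.sum_congr rfl fun j hj => ?_
      have : r + 1 - j = (r - j) + 1 := by have := Finset.mem_range.1 hj; omega
      rw [this, pow_succ]; ring
    rw [h1]
    have h2 : r + 1 - r = 1 := by omega
    rw [h2, pow_succ]
    omega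

/-- the level of distribution used -/
theorem level (P : Finset ℕ) (z r : ℕ) (hz : 1 ≤ z) (p : Fin r → Finset ℕ)
    (hp : ∀ j, p j ⊆ blk P z j) (hc : ∀ j : Fin r, (p j).card ≤ 2 * (j : ℕ) + 1) :
    ∏ l ∈ univ.biUnion p, l ≤ z ^ 6 := by
  classical
  have hdj : ∀ i ∈ (univ : Finset (Fin r)), ∀ j ∈ (univ : Finset (Fin r)), i ≠ j → Disjoint (p i) (p j) :=
    fun i _ j _ hij => (blk_disjoint P z i j (fun h => hij (Fin.ext h))).mono (hp i) (hp j)
  rw [Finset.prod_biUnion hdj]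
  have h1 : ∀ j : Fin r, (∏ l ∈ p j, l) ^ 2 ^ r ≤ z ^ ((2 * (j : ℕ) + 1) * 2 ^ (r - (j : ℕ))) := by
    intro j
    have hjr : 2 ^ r = 2 ^ (j : ℕ) * 2 ^ (r - (j : ℕ)) := by
      rw [← pow_add]; congr 1; have := j.2; omega
    rw [hjr, pow_mul, pow_mul]
    refine Nat.pow_le_pow_left ?_ _
    rw [← Finset.prod_pow]
    calc ∏ l ∈ p j, l ^ 2 ^ (j : ℕ) ≤ ∏ l ∈ p j, z :=
          Finset.prod_le_prod' fun l hl => (Finset.mem_filter.1 (hp j hl)).2.1
      _ = z ^ (p j).card := by rw [Finset.prod_const]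
      _ ≤ z ^ (2 * (j : ℕ) + 1) := Nat.pow_le_pow_right hz (hc j)
  have h2 : (∏ j, ∏ l ∈ p j, l) ^ 2 ^ r ≤ (z ^ 6) ^ 2 ^ r := by
    rw [← Finset.prod_pow]
    calc ∏ j, (∏ l ∈ p j, l) ^ 2 ^ r ≤ ∏ j : Fin r, z ^ ((2 * (j : ℕ) + 1) * 2 ^ (r - (j : ℕ))) :=
          Finset.prod_le_prod' fun j _ => h1 j
      _ = z ^ (∑ j : Fin r, (2 * (j : ℕ) + 1) * 2 ^ (r - (j : ℕ))) := by
          rw [Finset.prod_pow_eq_pow_sum]
      _ ≤ z ^ (6 * 2 ^ r) := by
          refine Nat.pow_le_pow_right hz ?_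
          have := level_sum r
          rw [Finset.sum_range] at this
          omega
      _ = (z ^ 6) ^ 2 ^ r := by rw [pow_mul]
  exact (Nat.pow_le_pow_iff_left (by positivity)).1 h2

theorem sum_powerset_prod (B : Finset ℕ) (e : ℕ → ℝ) :
    ∑ E ∈ B.powerset, ∏ l ∈ E, e l = ∏ l ∈ B, (1 + e l) := by
  rw [Finset.prod_one_add]

theorem sum_family_le (B : Finset ℕ) (e : ℕ → ℝ) (he : ∀ l ∈ B, 0 ≤ e l) (t : Finset (Finset ℕ))
    (ht : t ⊆ B.powerset) : ∑ E ∈ t, ∏ l ∈ E, e l ≤ Real.exp (∑ l ∈ B, e l) := by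
  calc ∑ E ∈ t, ∏ l ∈ E, e l ≤ ∑ E ∈ B.powerset, ∏ l ∈ E, e l := by
        refine Finset.sum_le_sum_of_subset_of_nonneg ht fun E hE _ => ?_
        exact Finset.prod_nonneg fun l hl => he l ((Finset.mem_powerset.1 hE) hl)
    _ = ∏ l ∈ B, (1 + e l) := sum_powerset_prod B e
    _ ≤ ∏ l ∈ B, Real.exp (e l) := by
        refine Finset.prod_le_prod (fun l hl => by have := he l hl; linarith) fun l _ => ?_
        rw [add_comm]; exact Real.add_one_le_exp _
    _ = _ := by rw [Real.exp_sum]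

theorem one_sub_ge_exp (x : ℝ) (h0 : 0 ≤ x) (h1 : x ≤ 1 / 2) : Real.exp (-(2 * x)) ≤ 1 - x := by
  have h2 : Real.exp (-(2 * x)) ≤ 1 / (1 + 2 * x) := by
    rw [Real.exp_neg, ← one_div]
    refine one_div_le_one_div_of_le (by linarith) ?_
    have := Real.add_one_le_exp (2 * x)
    linarith
  refine h2.trans ?_
  rw [div_le_iff₀ (by linarith)]
  nlinarith

theorem one_sub_sum_le_prod (B : Finset ℕ) (e : ℕ → ℝ) (he : ∀ l ∈ B, 0 ≤ e l ∧ e l ≤ 1) :
    1 - ∑ l ∈ B, e l ≤ ∏ l ∈ B, (1 - e l) := by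
  classical
  induction B using Finset.induction_on with
  | empty => simp
  | insert a B ha ih =>
    rw [Finset.sum_insert ha, Finset.prod_insert ha]
    have hB := fun l hl => he l (Finset.mem_insert_of_mem hl)
    have ha' := he a (Finset.mem_insert_self a B)
    have h1 := ih hB
    have h2 := prod_one_sub_mem B e hB
    nlinarith [h2.1, h2.2, ha'.1, ha'.2]

theorem geo_sum (r : ℕ) : ∑ j : Fin r, (10 / 9 : ℝ) * (1 / 10) ^ (2 * (j : ℕ) + 1) ≤ 0.113 := by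
  have h : ∀ r : ℕ, ∑ j ∈ range r, (10 / 9 : ℝ) * (1 / 10) ^ (2 * j + 1) =
      (100 / 891) * (1 - (1 / 100) ^ r) := by
    intro r
    induction r with
    | zero => norm_num
    | succ r ih =>
      rw [Finset.sum_range_succ, ih]
      have : (1 / 10 : ℝ) ^ (2 * r + 1) = (1 / 100) ^ r * (1 / 10) := by
        rw [pow_succ, pow_mul]; norm_num
      rw [this, pow_succ]; ring
  rw [← Finset.sum_range (fun j => (10 / 9 : ℝ) * (1 / 10) ^ (2 * j + 1)), h]
  have : (0 : ℝ) ≤ (1 / 100) ^ r := by positivity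
  nlinarith

theorem geo_sum' (r : ℕ) (κ : ℝ) (h0 : 0 ≤ κ) (h1 : κ ≤ 1 / 10) :
    ∑ j : Fin r, (10 / 9 : ℝ) * κ ^ (2 * (j : ℕ) + 1) ≤ 1.13 * κ := by
  have h2 : ∀ j : Fin r, (10 / 9 : ℝ) * κ ^ (2 * (j : ℕ) + 1) ≤
      10 * κ * ((10 / 9 : ℝ) * (1 / 10) ^ (2 * (j : ℕ) + 1)) := by
    intro j
    have h3 : κ ^ (2 * (j : ℕ)) ≤ (1 / 10) ^ (2 * (j : ℕ)) := pow_le_pow_left₀ h0 h1 _
    have h4 : κ ^ (2 * (j : ℕ) + 1) = κ * κ ^ (2 * (j : ℕ)) := by rw [pow_succ]; ring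
    have h5 : (1 / 10 : ℝ) ^ (2 * (j : ℕ) + 1) = (1 / 10) * (1 / 10) ^ (2 * (j : ℕ)) := by
      rw [pow_succ]; ring
    rw [h4, h5]
    have h6 := mul_le_mul_of_nonneg_left h3 h0
    nlinarith
  calc ∑ j : Fin r, (10 / 9 : ℝ) * κ ^ (2 * (j : ℕ) + 1)
      ≤ ∑ j : Fin r, 10 * κ * ((10 / 9 : ℝ) * (1 / 10) ^ (2 * (j : ℕ) + 1)) :=
        Finset.sum_le_sum fun j _ => h2 j
    _ = 10 * κ * ∑ j : Fin r, (10 / 9 : ℝ) * (1 / 10) ^ (2 * (j : ℕ) + 1) := by
        rw [Finset.mul_sum]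
    _ ≤ 10 * κ * 0.113 := mul_le_mul_of_nonneg_left (geo_sum r) (by linarith)
    _ = 1.13 * κ := by ring

/-- **Brun-Hooley**, dimension close to zero, asymptotic form. -/
theorem bh_asymp (A : Finset α) (hit : ℕ → α → Prop) (e : ℕ → ℝ) (P : Finset ℕ) (z r : ℕ) (η κ : ℝ)
    (hκ0 : 0 ≤ κ) (hκ1 : κ ≤ 1 / 10)
    (hz : 1 ≤ z) (hP : ∀ l ∈ P, 2 ≤ l ∧ l ≤ z) (he : ∀ l ∈ P, 0 ≤ e l ∧ e l ≤ 1)
    (hr : z < 2 ^ 2 ^ r) (hL : ∀ j : Fin r, ∑ l ∈ blk P z j, e l ≤ κ) (hη0 : 0 ≤ η)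
    (hη : ((r : ℝ) + 1) * η * Real.exp (3 * ∑ l ∈ P, e l) ≤ κ)
    (hA : ∀ E : Finset ℕ, E ⊆ P → ∏ l ∈ E, l ≤ z ^ 6 →
      |cnt A hit E - (A.card : ℝ) * ∏ l ∈ E, e l| ≤ η * (A.card : ℝ) * ∏ l ∈ E, e l) :
    (1 - 3 * κ) * (A.card : ℝ) * ∏ l ∈ P, (1 - e l) ≤ cnt A (fun l x => ¬ hit l x) P ∧
      cnt A (fun l x => ¬ hit l x) P ≤ (1 + 3 * κ) * (A.card : ℝ) * ∏ l ∈ P, (1 - e l) := by
  classical
  set B : Fin r → Finset ℕ := fun j => blk P z j with hBdef
  have hBP : ∀ j, B j ⊆ P := fun j => blk_subset _ _ _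
  have hBd : ∀ i j, i ≠ j → Disjoint (B i) (B j) :=
    fun i j hij => blk_disjoint P z i j (fun h => hij (Fin.ext h))
  have hcov : univ.biUnion B = P := blk_cover P z r hP hr
  have heB : ∀ j, ∀ l ∈ B j, 0 ≤ e l ∧ e l ≤ 1 := fun j l hl => he l (hBP j hl)
  have hprodP : ∀ w : ℕ → ℝ, ∏ l ∈ P, w l = ∏ j, ∏ l ∈ B j, w l := by
    intro w
    rw [← hcov, Finset.prod_biUnion (fun i _ j _ hij => hBd i j hij)]
  have hsumP : ∑ l ∈ P, e l = ∑ j, ∑ l ∈ B j, e l := by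
    have := Finset.sum_biUnion (s := (univ : Finset (Fin r))) (t := B) (f := e)
      (fun i _ j _ hij => hBd i j hij)
    rw [hcov] at this
    exact this
  set a : ℝ := (A.card : ℝ) with ha
  have ha0 : 0 ≤ a := Nat.cast_nonneg _
  set V : Fin r → ℝ := fun j => ∏ l ∈ B j, (1 - e l) with hV
  set T : Fin r → ℝ := fun j => tr (B j) e (2 * (j : ℕ)) with hT
  set R : Fin r → ℝ := fun j => es (B j) e (2 * (j : ℕ) + 1) with hR
  set Se : ℝ := ∑ l ∈ P, e l with hS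
  have hVm : ∀ j, 9 / 10 ≤ V j := by
    intro j
    have h1 := one_sub_sum_le_prod (B j) e (heB j)
    have h2 := hL j
    linarith
  have hRm : ∀ j, 0 ≤ R j ∧ R j ≤ κ ^ (2 * (j : ℕ) + 1) := by
    intro j
    refine ⟨es_nonneg _ _ (fun l hl => (heB j l hl).1) _, ?_⟩
    refine (es_le_pow _ _ (fun l hl => (heB j l hl).1) _).trans ?_
    exact pow_le_pow_left₀ (Finset.sum_nonneg fun l hl => (heB j l hl).1) (hL j) _
  have hTm : ∀ j, V j ≤ T j ∧ T j ≤ V j + R j := fun j => tr_even (B j) e (heB j) j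
  have hVP : ∏ l ∈ P, (1 - e l) = ∏ j, V j := hprodP _
  set VP : ℝ := ∏ j, V j with hVPdef
  have hVP0 : 0 ≤ VP := Finset.prod_nonneg fun j _ => by have := hVm j; linarith
  have hVPexp : Real.exp (-(2 * Se)) ≤ VP := by
    rw [← hVP]
    have : -(2 * Se) = ∑ l ∈ P, (-(2 * e l)) := by
      rw [hS, Finset.mul_sum, Finset.sum_neg_distrib]
    rw [this, Real.exp_sum]
    refine Finset.prod_le_prod (fun l _ => (Real.exp_pos _).le) fun l hl => ?_
    refine one_sub_ge_exp _ (he l hl).1 ?_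
    rw [← hcov] at hl
    obtain ⟨j, _, hj⟩ := Finset.mem_biUnion.1 hl
    have h1 : e l ≤ ∑ l ∈ B j, e l :=
      Finset.single_le_sum (f := e) (fun l hl => (heB j l hl).1) hj
    have := hL j
    linarith
  have herr : ((r : ℝ) + 1) * η * Real.exp Se ≤ κ * VP := by
    have h1 : Real.exp Se = Real.exp (3 * Se) * Real.exp (-(2 * Se)) := by
      rw [← Real.exp_add]; congr 1; ring
    rw [h1, ← mul_assoc]
    calc ((r : ℝ) + 1) * η * Real.exp (3 * Se) * Real.exp (-(2 * Se))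
        ≤ κ * Real.exp (-(2 * Se)) := mul_le_mul_of_nonneg_right hη (Real.exp_pos _).le
      _ ≤ κ * VP := mul_le_mul_of_nonneg_left hVPexp hκ0
  have hηe : 0 ≤ η * Real.exp Se := mul_nonneg hη0 (Real.exp_pos _).le
  -- pointwise quantities
  set u : α → Fin r → ℝ := fun x j => ∏ l ∈ B j, (1 - wt hit x l) with hu
  set Tx : α → Fin r → ℝ := fun x j => tr (B j) (wt hit x) (2 * (j : ℕ)) with hTx
  set Rx : α → Fin r → ℝ := fun x j => es (B j) (wt hit x) (2 * (j : ℕ) + 1) with hRx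
  have hcnt : cnt A (fun l x => ¬ hit l x) P = ∑ x ∈ A, ∏ j, u x j := by
    rw [← sum_prod_wt]
    refine Finset.sum_congr rfl fun x _ => ?_
    have : ∀ l, wt (fun l x => ¬ hit l x) x l = 1 - wt hit x l := by
      intro l
      unfold wt
      by_cases h : hit l x <;> simp [h]
    rw [Finset.prod_congr rfl (fun l _ => this l), hprodP]
  have app : ∀ (t : Fin r → Finset (Finset ℕ)) (s : Fin r → Finset ℕ → ℝ),
      (∀ j, ∀ E ∈ t j, E ⊆ B j ∧ E.card ≤ 2 * (j : ℕ) + 1) → (∀ j E, |s j E| ≤ 1) →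
      |∑ x ∈ A, ∏ j, ∑ E ∈ t j, s j E * ∏ l ∈ E, wt hit x l
        - a * ∏ j, ∑ E ∈ t j, s j E * ∏ l ∈ E, e l| ≤ η * a * Real.exp Se := by
    intro t s ht hs
    have h1 := approx A hit e r B hBd t (fun j E hE => (ht j E hE).1) s hs
      (fun j l hl => (heB j l hl).1) η (by
        intro p hp
        have hp' := Fintype.mem_piFinset.1 hp
        refine hA _ ?_ ?_
        · intro l hl
          obtain ⟨j, _, hj⟩ := Finset.mem_biUnion.1 hl
          exact hBP j ((ht j _ (hp' j)).1 hj)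
        · exact level P z r hz p (fun j => (ht j _ (hp' j)).1) (fun j => (ht j _ (hp' j)).2))
    refine h1.trans ?_
    refine mul_le_mul_of_nonneg_left ?_ (mul_nonneg hη0 ha0)
    rw [hsumP, Real.exp_sum]
    refine Finset.prod_le_prod (fun j _ => ?_) (fun j _ => ?_)
    · exact Finset.sum_nonneg fun E hE => Finset.prod_nonneg fun l hl =>
        (heB j l ((ht j E hE).1 hl)).1
    · exact sum_family_le (B j) e (fun l hl => (heB j l hl).1) (t j)
        (fun E hE => Finset.mem_powerset.2 (ht j E hE).1)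
  set t0 : Fin r → Finset (Finset ℕ) :=
    fun j => (B j).powerset.filter (fun E => E.card ≤ 2 * (j : ℕ)) with ht0
  set s0 : Fin r → Finset ℕ → ℝ := fun _ E => (-1 : ℝ) ^ E.card with hs0
  have ht0' : ∀ j, ∀ E ∈ t0 j, E ⊆ B j ∧ E.card ≤ 2 * (j : ℕ) + 1 := by
    intro j E hE
    obtain ⟨h1, h2⟩ := Finset.mem_filter.1 hE
    exact ⟨Finset.mem_powerset.1 h1, by omega⟩
  have hs0' : ∀ j E, |s0 j E| ≤ 1 := by
    intro j E
    simp [hs0, abs_pow]
  have hTx' : ∀ x j, Tx x j = ∑ E ∈ t0 j, s0 j E * ∏ l ∈ E, wt hit x l := by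
    intro x j
    simp only [hTx, tr, ht0, hs0]
    exact Finset.sum_congr rfl fun E _ => prod_neg_eq E _
  have hT' : ∀ j, T j = ∑ E ∈ t0 j, s0 j E * ∏ l ∈ E, e l := by
    intro j
    simp only [hT, tr, ht0, hs0]
    exact Finset.sum_congr rfl fun E _ => prod_neg_eq E _
  have hup := app t0 s0 ht0' hs0'
  have hmainT : |∑ x ∈ A, ∏ j, Tx x j - a * ∏ j, T j| ≤ η * a * Real.exp Se := by
    simpa only [hTx', hT'] using hup
  have hpt : ∀ x j, 0 ≤ u x j ∧ u x j ≤ Tx x j ∧ Tx x j ≤ u x j + Rx x j := by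
    intro x j
    have h1 := tr_even (B j) (wt hit x) (fun l _ => wt_mem hit x l) j
    exact ⟨(prod_one_sub_mem (B j) (wt hit x) (fun l _ => wt_mem hit x l)).1, h1.1, h1.2⟩
  -- bounds for the product of the T j
  have hTV : ∏ j, T j ≤ VP * Real.exp (1.13 * κ) := by
    have h1 : ∀ j, T j ≤ V j * (1 + (10 / 9 : ℝ) * κ ^ (2 * (j : ℕ) + 1)) := by
      intro j
      have h2 := (hTm j).2
      have h3 := (hRm j).2
      have h4 := hVm j
      have h5 : (0 : ℝ) ≤ κ ^ (2 * (j : ℕ) + 1) := by positivity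
      nlinarith
    calc ∏ j, T j ≤ ∏ j, (V j * (1 + (10 / 9 : ℝ) * κ ^ (2 * (j : ℕ) + 1))) :=
          Finset.prod_le_prod (fun j _ => by have := (hTm j).1; have := hVm j; linarith)
            (fun j _ => h1 j)
      _ = VP * ∏ j : Fin r, (1 + (10 / 9 : ℝ) * κ ^ (2 * (j : ℕ) + 1)) := by
          rw [Finset.prod_mul_distrib]
      _ ≤ VP * Real.exp (1.13 * κ) := by
          refine mul_le_mul_of_nonneg_left ?_ hVP0
          calc ∏ j : Fin r, (1 + (10 / 9 : ℝ) * κ ^ (2 * (j : ℕ) + 1))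
              ≤ ∏ j : Fin r, Real.exp ((10 / 9 : ℝ) * κ ^ (2 * (j : ℕ) + 1)) := by
                refine Finset.prod_le_prod (fun j _ => by positivity) fun j _ => ?_
                rw [add_comm]; exact Real.add_one_le_exp _
            _ = Real.exp (∑ j : Fin r, (10 / 9 : ℝ) * κ ^ (2 * (j : ℕ) + 1)) := by
                rw [Real.exp_sum]
            _ ≤ _ := Real.exp_le_exp.2 (geo_sum' r κ hκ0 hκ1)
  have hTV2 : VP ≤ ∏ j, T j :=
    Finset.prod_le_prod (fun j _ => by have := hVm j; linarith) (fun j _ => (hTm j).1)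
  have hexp : Real.exp (1.13 * κ) ≤ 1 + 2 * κ := by
    have h1 : 1 - 1.13 * κ ≤ Real.exp (-(1.13 * κ)) := by
      have := Real.add_one_le_exp (-(1.13 * κ))
      linarith
    have h2 : Real.exp (1.13 * κ) = 1 / Real.exp (-(1.13 * κ)) := by
      rw [Real.exp_neg, one_div, inv_inv]
    rw [h2, div_le_iff₀ (Real.exp_pos _)]
    nlinarith
  have hr1 : (1 : ℝ) ≤ (r : ℝ) + 1 := by have : (0 : ℝ) ≤ r := Nat.cast_nonneg r; linarith
  have herr1 : η * Real.exp Se ≤ κ * VP := by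
    refine le_trans ?_ herr
    calc η * Real.exp Se = 1 * (η * Real.exp Se) := (one_mul _).symm
      _ ≤ ((r : ℝ) + 1) * (η * Real.exp Se) := mul_le_mul_of_nonneg_right hr1 hηe
      _ = _ := by ring
  rw [hVP]
  constructor
  · -- lower bound
    have h1 : ∀ x ∈ A, ∏ j, Tx x j - ∑ l, Rx x l * ∏ j ∈ univ.erase l, Tx x j ≤ ∏ j, u x j :=
      fun x _ => prod_lower r (u x) (Tx x) (Rx x) (fun j => (hpt x j).1) (fun j => (hpt x j).2.1)
        (fun j => (hpt x j).2.2)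
    have h2 := Finset.sum_le_sum h1
    rw [Finset.sum_sub_distrib, Finset.sum_comm, ← hcnt] at h2
    have h3 : ∀ l : Fin r, ∑ x ∈ A, Rx x l * ∏ j ∈ univ.erase l, Tx x j ≤
        a * (R l * ∏ j ∈ univ.erase l, T j) + η * a * Real.exp Se := by
      intro l
      set t1 : Fin r → Finset (Finset ℕ) :=
        Function.update t0 l ((B l).powersetCard (2 * (l : ℕ) + 1)) with ht1
      set s1 : Fin r → Finset ℕ → ℝ := Function.update s0 l (fun _ => 1) with hs1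
      have hb1 : ∀ j, ∀ E ∈ t1 j, E ⊆ B j ∧ E.card ≤ 2 * (j : ℕ) + 1 := by
        intro j E hE
        by_cases hj : j = l
        · subst hj
          rw [ht1, Function.update_self] at hE
          obtain ⟨h1, h2⟩ := Finset.mem_powersetCard.1 hE
          exact ⟨h1, h2.le⟩
        · rw [ht1, Function.update_of_ne hj] at hE
          exact ht0' j E hE
      have hc1 : ∀ j E, |s1 j E| ≤ 1 := by
        intro j E
        by_cases hj : j = l
        · subst hj; rw [hs1, Function.update_self]; simp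
        · rw [hs1, Function.update_of_ne hj]; exact hs0' j E
      have h4 := app t1 s1 hb1 hc1
      have e1 : ∀ (w : ℕ → ℝ) (Tw : Fin r → ℝ) (Rw : ℝ),
          (∀ j, Tw j = ∑ E ∈ t0 j, s0 j E * ∏ l ∈ E, w l) →
          Rw = es (B l) w (2 * (l : ℕ) + 1) →
          ∏ j, ∑ E ∈ t1 j, s1 j E * ∏ l ∈ E, w l = Rw * ∏ j ∈ univ.erase l, Tw j := by
        intro w Tw Rw hTw hRw
        rw [← Finset.mul_prod_erase univ _ (Finset.mem_univ l)]
        congr 1
        · rw [ht1, hs1, Function.update_self, Function.update_self, hRw]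
          simp [es]
        · refine Finset.prod_congr rfl fun j hj => ?_
          have hj' : j ≠ l := Finset.ne_of_mem_erase hj
          rw [ht1, hs1, Function.update_of_ne hj', Function.update_of_ne hj', hTw j]
      have e2 : ∀ x, ∏ j, ∑ E ∈ t1 j, s1 j E * ∏ l ∈ E, wt hit x l =
          Rx x l * ∏ j ∈ univ.erase l, Tx x j := fun x => e1 (wt hit x) (Tx x) (Rx x l) (hTx' x) rfl
      have e3 : ∏ j, ∑ E ∈ t1 j, s1 j E * ∏ l ∈ E, e l = R l * ∏ j ∈ univ.erase l, T j :=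
        e1 e T (R l) hT' rfl
      simp only [e2, e3] at h4
      have := (abs_le.1 h4).2
      linarith
    have h4 : ∑ l, ∑ x ∈ A, Rx x l * ∏ j ∈ univ.erase l, Tx x j ≤
        a * ∑ l, R l * ∏ j ∈ univ.erase l, T j + (r : ℝ) * (η * a * Real.exp Se) := by
      calc ∑ l, ∑ x ∈ A, Rx x l * ∏ j ∈ univ.erase l, Tx x j
          ≤ ∑ l, (a * (R l * ∏ j ∈ univ.erase l, T j) + η * a * Real.exp Se) :=
            Finset.sum_le_sum fun l _ => h3 l
        _ = _ := by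
            rw [Finset.sum_add_distrib, Finset.mul_sum, Finset.sum_const, Finset.card_univ,
              Fintype.card_fin, nsmul_eq_mul]
    have h5 : ∀ l, R l * ∏ j ∈ univ.erase l, T j ≤
        (10 / 9 : ℝ) * κ ^ (2 * (l : ℕ) + 1) * ∏ j, T j := by
      intro l
      rw [← Finset.mul_prod_erase univ T (Finset.mem_univ l), ← mul_assoc]
      refine mul_le_mul_of_nonneg_right ?_ (Finset.prod_nonneg fun j _ => by
        have := (hTm j).1; have := hVm j; linarith)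
      have h6 := (hRm l).2
      have h7 : 9 / 10 ≤ T l := (hVm l).trans (hTm l).1
      have h8 : (0 : ℝ) ≤ κ ^ (2 * (l : ℕ) + 1) := by positivity
      nlinarith
    have hTP0 : 0 ≤ ∏ j, T j := hVP0.trans hTV2
    have h6 : ∑ l, R l * ∏ j ∈ univ.erase l, T j ≤ 1.13 * κ * ∏ j, T j := by
      calc ∑ l, R l * ∏ j ∈ univ.erase l, T j
          ≤ ∑ l : Fin r, (10 / 9 : ℝ) * κ ^ (2 * (l : ℕ) + 1) * ∏ j, T j :=
            Finset.sum_le_sum fun l _ => h5 l
        _ = (∑ l : Fin r, (10 / 9 : ℝ) * κ ^ (2 * (l : ℕ) + 1)) * ∏ j, T j := by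
            rw [Finset.sum_mul]
        _ ≤ _ := mul_le_mul_of_nonneg_right (geo_sum' r κ hκ0 hκ1) hTP0
    have h7 := (abs_le.1 hmainT).1
    have h8 := mul_le_mul_of_nonneg_left h6 ha0
    have h9 := mul_le_mul_of_nonneg_left hTV2 ha0
    have h10 := mul_le_mul_of_nonneg_left herr ha0
    nlinarith
  · -- upper bound
    have h1 : cnt A (fun l x => ¬ hit l x) P ≤ ∑ x ∈ A, ∏ j, Tx x j := by
      rw [hcnt]
      exact Finset.sum_le_sum fun x _ => Finset.prod_le_prod (fun j _ => (hpt x j).1)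
        (fun j _ => (hpt x j).2.1)
    have h2 := (abs_le.1 hmainT).2
    have h3 := mul_le_mul_of_nonneg_left hTV ha0
    have h4 := mul_le_mul_of_nonneg_left herr1 ha0
    have h5 : a * (VP * Real.exp (1.13 * κ)) ≤ a * (VP * (1 + 2 * κ)) :=
      mul_le_mul_of_nonneg_left (mul_le_mul_of_nonneg_left hexp hVP0) ha0
    have h6 : 0 ≤ a * VP := mul_nonneg ha0 hVP0
    nlinarith

/-- **Brun-Hooley**, constants `1/2` and `2`. -/
theorem bh (A : Finset α) (hit : ℕ → α → Prop) (e : ℕ → ℝ) (P : Finset ℕ) (z r : ℕ) (η : ℝ)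
    (hz : 1 ≤ z) (hP : ∀ l ∈ P, 2 ≤ l ∧ l ≤ z) (he : ∀ l ∈ P, 0 ≤ e l ∧ e l ≤ 1)
    (hr : z < 2 ^ 2 ^ r) (hL : ∀ j : Fin r, ∑ l ∈ blk P z j, e l ≤ 1 / 10) (hη0 : 0 ≤ η)
    (hη : ((r : ℝ) + 1) * η * Real.exp (3 * ∑ l ∈ P, e l) ≤ 1 / 10)
    (hA : ∀ E : Finset ℕ, E ⊆ P → ∏ l ∈ E, l ≤ z ^ 6 →
      |cnt A hit E - (A.card : ℝ) * ∏ l ∈ E, e l| ≤ η * (A.card : ℝ) * ∏ l ∈ E, e l) :
    (1 / 2) * (A.card : ℝ) * ∏ l ∈ P, (1 - e l) ≤ cnt A (fun l x => ¬ hit l x) P ∧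
      cnt A (fun l x => ¬ hit l x) P ≤ 2 * (A.card : ℝ) * ∏ l ∈ P, (1 - e l) := by
  have h := bh_asymp A hit e P z r η (1 / 10) (by norm_num) le_rfl hz hP he hr hL hη0 hη hA
  have h0 : 0 ≤ (A.card : ℝ) * ∏ l ∈ P, (1 - e l) :=
    mul_nonneg (Nat.cast_nonneg _) (prod_one_sub_mem P e he).1
  constructor
  · nlinarith [h.1]
  · nlinarith [h.2]

end Pool.Agent.Helper58.SV
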